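import Mathlib
import Pool.Agent.Lib_MP_a1e9e0_gt.Defs
import Pool.Agent.Lib_MP_a1e9e0_gt.Proof

/-!
A Hausdorff strict quasi-Lindelöf space whose piecewise weak Lindelöf degree for closed sets
is larger than the continuum.
-/

namespace Pool.Agent.Results.MP_a1e9e0_gt.HausdorffExample

open Pool.Agent.Lib_MP_a1e9e0_gt

/-- There is a Hausdorff strict quasi-Lindelöf space `X` with `pwL_c(X)` larger than the
continuum, in particular with `pwL_c(X) > ℵ₀`. -/
theorem result : ∃ (X : Type) (_ : TopologicalSpace X),
    T2Space X ∧ StrictQuasiLindelof X ∧ Cardinal.continuum < pwLc X :=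
  exists_hausdorff_example

end Pool.Agent.Results.MP_a1e9e0_gt.HausdorffExample
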